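import Pool.Agent.H70.Shadow

set_option autoImplicit false

namespace Pool.Agent.Results.MP_ea4c65_al.Counterexample

open Pool.Agent.H70.ShadowDefs

theorem result : ∃ (G : Type) (_ : Group G) (S : Finset G) (x : G),
    Infinite G ∧ Subgroup.closure (S : Set G) = ⊤ ∧ (len S x + 1) / 2 < sd S x :=
  ⟨_, _, Pool.Agent.H70.Shadow.S, Pool.Agent.H70.Shadow.x0, inferInstance,
    Pool.Agent.H70.Shadow.gen, Pool.Agent.H70.Shadow.main⟩

end Pool.Agent.Results.MP_ea4c65_al.Counterexample
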